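import Pool.Agent.H.MP_6ac4e5_co.B

/-! Families with pairwise different intersection sizes: `f n` up to one, and exactly for most `n`. -/

namespace Pool.Agent.Results.MP_6ac4e5_co.Sharp

open Finset Pool.Agent.H.MP_6ac4e5_co.A Pool.Agent.H.MP_6ac4e5_co.B

/-- Pairwise distinct subsets whose pairwise intersection sizes are pairwise different. -/
def IntDistinct {n m : ℕ} (A : Fin m → Finset (Fin n)) : Prop :=
  Function.Injective A ∧ ∀ i j i' j' : Fin m, i < j → i' < j' →
    (A i ∩ A j).card = (A i' ∩ A j').card → i = i' ∧ j = j'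

/-- The largest size of an intersection-distinct family of subsets of an `n`-element set. -/
noncomputable def f (n : ℕ) : ℕ := sSup {m | ∃ A : Fin m → Finset (Fin n), IntDistinct A}

theorem upper {n m : ℕ} (h : Ex n m) : m.choose 2 ≤ n := by
  obtain ⟨A, h1, h2⟩ := h
  have a1 := card_product_filter_lt (s := (univ : Finset (Fin m)))
  rw [card_univ, Fintype.card_fin] at a1
  rw [← a1]
  conv_rhs => rw [← card_range n]
  refine card_le_card_of_injOn (fun p => (A p.1 ∩ A p.2).card) (fun p hp => ?_) fun p hp p' hp' e => ?_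
  · have b1 := (mem_filter.1 (mem_coe.1 hp)).2
    have b2 : A p.1 ∩ A p.2 ≠ univ := fun e => by
      rw [inter_eq_univ] at e
      exact b1.ne (h1 (e.1.trans e.2.symm))
    simpa using (card_lt_iff_ne_univ _).2 b2
  · exact Prod.ext_iff.2 (h2 _ _ _ _ (mem_filter.1 (mem_coe.1 hp)).2 (mem_filter.1 (mem_coe.1 hp')).2 e)

theorem le_f {n m : ℕ} (h : Ex n m) : m ≤ f n := by
  refine le_csSup ⟨n + 2, fun k hk => ?_⟩ h
  have a1 := upper hk
  rw [← tri_eq] at a1
  by_contra hc
  have a2 := tri_lt (show n + 2 < k by omega)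
  omega

theorem result (n k : ℕ) (hn : 1 ≤ n) (h1 : k.choose 2 ≤ n) (h2 : n < (k + 1).choose 2) :
    k - 1 ≤ f n ∧ f n ≤ k ∧ (k.choose 2 + 130 * Nat.sqrt k + 146 ≤ n → f n = k) := by
  have up : f n ≤ k := by
    refine csSup_le ⟨0, fun i => i.elim0, fun i => i.elim0, fun i => i.elim0⟩ fun m hm => ?_
    have a1 := upper hm
    by_contra hc
    have := Nat.choose_le_choose 2 (show k + 1 ≤ m by omega)
    omega
  rw [← tri_eq] at h1 h2
  have k2 : 2 ≤ k := by
    by_contra hc
    have := tri_mono (show k + 1 ≤ 2 by omega)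
    have : tri 2 = 1 := rfl
    omega
  refine ⟨?_, up, fun h => le_antisymm up ?_⟩
  · rcases Nat.lt_or_eq_of_le k2 with c | rfl
    · obtain ⟨m, rfl⟩ : ∃ m, k = m + 2 := ⟨k - 2, by omega⟩
      exact le_f (simple n m (by omega) (by omega))
    · exact le_f (m := 1) ⟨fun _ => ∅, fun i j _ => Subsingleton.elim i j,
        fun i j _ _ h => absurd (Subsingleton.elim i j) h.ne⟩
  · obtain ⟨q, p1, p2, p3⟩ := Nat.exists_prime_lt_and_le_two_mul (Nat.sqrt k + 1) (by omega)
    haveI : Fact q.Prime := ⟨p1⟩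
    obtain ⟨m, rfl⟩ : ∃ m, k = m + 1 := ⟨k - 1, by omega⟩
    have a1 : m + 1 < (Nat.sqrt (m + 1) + 1) * (Nat.sqrt (m + 1) + 1) := Nat.lt_succ_sqrt (m + 1)
    have a2 := Nat.mul_le_mul p2.le p2.le
    rw [← tri_eq] at h
    exact le_f (main q m n (by omega) (by omega))

end Pool.Agent.Results.MP_6ac4e5_co.Sharp
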